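import Pool.Agent.V11257.Nm14

/-!
# A model of ZF in which IDFBI holds and IWDI fails

The model is a symmetric extension with a copy `A` of the set of the finite sets of natural numbers
and names for the subsets of `A` that are equal, up to finitely many elements, to the set of the
finite sets that contain `i`, for some `i`; only the permutations of `A` and of the names that
preserve membership and the indices `i` are used. The set `A` is weakly Dedekind-finite, since every
sequence of subsets of `A` is determined by finitely many of the names. An infinite set `x` of the
extension such that every family of finite subsets of `x` that is indexed by the natural numbers or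
by `A` has a finite union would be finite. So every infinite set has an infinite subset with a
function with finite fibres onto the set of the natural numbers or onto an infinite subset of `A`,
and such sets are dyadically filterbase infinite.
-/

namespace Pool.Agent.Results.MP_42b9e0_lc.DyadicNotWeakly

open FirstOrder FirstOrder.Language
open Pool.Agent.Helper672.Plain (LSet)
open Pool.Agent.H635Amen (ZF)
open Pool.Agent.H310NAS (WO)
open Pool.Agent.V11257N (IDFBI IWDI)

universe u

/-- There is a model of ZF (and for every model of ZF in which every set has a well-order there is
one in the same universe) in which every infinite set is dyadically filterbase infinite, but not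
every infinite set is weakly Dedekind-infinite. -/
theorem result : (∃ (N : Type 1) (_ : LSet.Structure N), ZF N ∧ IDFBI N ∧ ¬ IWDI N) ∧
    ∀ (M : Type u) [LSet.Structure M], ZF M → WO M → ∃ (N : Type u) (_ : LSet.Structure N),
      ZF N ∧ IDFBI N ∧ ¬ IWDI N :=
  ⟨Pool.Agent.V11257N.exists_idf_zs, fun M _ h hW => Pool.Agent.V11257N.exists_idf M h hW⟩

end Pool.Agent.Results.MP_42b9e0_lc.DyadicNotWeakly
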